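import Pool.Agent.Helper38.EC.GoalsE1

/-! Packet BY of MP_ecc237 (helper38). -/

set_option autoImplicit false

open MeasureTheory Filter Topology Set

namespace Pool.Agent.Helper58.EC.E_BY

open EC237 EC237.DX

theorem dom (u : ℤ × ℤ → ℂ) (f : ℤ × ℤ → ℝ) (s : ℤ × ℤ) (A S : ℝ) (hA : 0 ≤ A)
    (hf : Summable f) (hS : ∑' k, f k ≤ S) (h : ∀ k, ‖u k‖ ≤ A * (f k + f (s - k))) :
    ‖∑' k, u k‖ ≤ A * (2 * S) := by
  have h1 : HasSum (fun k => f (s - k)) (∑' k, f k) := by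
    have := (Equiv.subLeft s).hasSum_iff (f := f) (a := ∑' k, f k)
    exact this.2 hf.hasSum
  have h2 := (hf.hasSum.add h1).mul_left A
  refine (tsum_of_norm_bounded h2 h).trans ?_
  refine mul_le_mul_of_nonneg_left ?_ hA
  linarith

theorem ry_neg (y : ℝ) (s : ℤ × ℤ) : ry y (-s) = ry y s := by
  unfold ry
  have : KA (y:ℂ) (-s) = -KA (y:ℂ) s := by
    unfold KA
    simp only [Prod.fst_neg, Prod.snd_neg, Int.cast_neg]
    ring
  rw [this, norm_neg]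

theorem ry_nonneg (y : ℝ) (s : ℤ × ℤ) : 0 ≤ ry y s := norm_nonneg _

theorem cl_ne (r : ℤ) (hr : r = 1 ∨ r = 5) (k : ℤ × ℤ) (h : InCl r k) : k.2 ≠ 0 := by
  unfold InCl at h
  rcases hr with rfl | rfl <;> omega

theorem cl_ne0 (r : ℤ) (hr : r = 1 ∨ r = 2 ∨ r = 3 ∨ r = 5) (k : ℤ × ℤ) (h : InCl r k) :
    k ≠ 0 := by
  rintro rfl
  unfold InCl at h
  simp only [Prod.fst_zero, Prod.snd_zero] at h
  rcases hr with rfl | rfl | rfl | rfl <;> omega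

theorem ne0_of_snd (k : ℤ × ℤ) (h : k.2 ≠ 0) : k ≠ 0 := by
  rintro rfl
  exact h rfl

/-- bound of a class sum, classes 1, 5 (`k.2 ≠ 0`) -/
theorem bnd1 (y : ℝ) (i : ℕ) (r r' α α' : ℤ) (s : ℤ × ℤ) (A S : ℝ) (hA : 0 ≤ A)
    (hr : r = 1 ∨ r = 5) (hr' : r' = 1 ∨ r' = 5)
    (hf : Summable (fun k : ℤ × ℤ => if k.2 = 0 then 0 else ry y k ^ (-(5 / 2) : ℝ)))
    (hS : ∑' k : ℤ × ℤ, (if k.2 = 0 then 0 else ry y k ^ (-(5 / 2) : ℝ)) ≤ S)
    (h : ∀ k k' : ℤ × ℤ, k.2 ≠ 0 → k'.2 ≠ 0 → k + k' = s → ‖xc (y:ℂ) i α α' k k'‖ ≤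
      A * (ry y k ^ (-(5 / 2) : ℝ) + ry y k' ^ (-(5 / 2) : ℝ))) :
    ‖cs (y:ℂ) i r r' α α' s‖ ≤ A * (2 * S) := by
  unfold cs
  refine dom _ _ s A S hA hf hS ?_
  intro k
  by_cases hk : InCl r k ∧ InCl r' (s - k)
  · rw [if_pos hk]
    have h1 := cl_ne r hr k hk.1
    have h2 := cl_ne r' hr' (s - k) hk.2
    rw [if_neg h1, if_neg h2]
    exact h k (s - k) h1 h2 (add_sub_cancel k s)
  · rw [if_neg hk, norm_zero]
    refine mul_nonneg hA (add_nonneg ?_ ?_)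
    · split_ifs
      · exact le_rfl
      · exact Real.rpow_nonneg (ry_nonneg y k) _
    · split_ifs
      · exact le_rfl
      · exact Real.rpow_nonneg (ry_nonneg y _) _

/-- bound of a class sum, classes 1, 3 (`k ≠ 0`) -/
theorem bnd2 (y : ℝ) (i : ℕ) (r r' α α' : ℤ) (s : ℤ × ℤ) (A S : ℝ) (hA : 0 ≤ A)
    (hr : r = 1 ∨ r = 2 ∨ r = 3 ∨ r = 5) (hr' : r' = 1 ∨ r' = 2 ∨ r' = 3 ∨ r' = 5)
    (hf : Summable (fun k : ℤ × ℤ => if k = 0 then 0 else ry y k ^ (-(5 / 2) : ℝ)))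
    (hS : ∑' k : ℤ × ℤ, (if k = 0 then 0 else ry y k ^ (-(5 / 2) : ℝ)) ≤ S)
    (h : ∀ k k' : ℤ × ℤ, k ≠ 0 → k' ≠ 0 → k + k' = s → ‖xc (y:ℂ) i α α' k k'‖ ≤
      A * (ry y k ^ (-(5 / 2) : ℝ) + ry y k' ^ (-(5 / 2) : ℝ))) :
    ‖cs (y:ℂ) i r r' α α' s‖ ≤ A * (2 * S) := by
  unfold cs
  refine dom _ _ s A S hA hf hS ?_
  intro k
  by_cases hk : InCl r k ∧ InCl r' (s - k)
  · rw [if_pos hk]
    have h1 := cl_ne0 r hr k hk.1
    have h2 := cl_ne0 r' hr' (s - k) hk.2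
    rw [if_neg h1, if_neg h2]
    exact h k (s - k) h1 h2 (add_sub_cancel k s)
  · rw [if_neg hk, norm_zero]
    refine mul_nonneg hA (add_nonneg ?_ ?_)
    · split_ifs
      · exact le_rfl
      · exact Real.rpow_nonneg (ry_nonneg y k) _
    · split_ifs
      · exact le_rfl
      · exact Real.rpow_nonneg (ry_nonneg y _) _

theorem thm (hBDX : G_BDX) (hLAT : G_LAT) : EC237.DX.G_BY := by
  obtain ⟨hy1, C, hC, hL⟩ := hLAT
  refine ⟨24 * C, by positivity, ?_⟩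
  intro y hy s
  have hy0 : 0 < y := by linarith
  obtain ⟨⟨hf0, hS0⟩, ⟨hf1, hS1⟩, -⟩ := hL y hy
  have a1 : |(1:ℤ)| ≤ 1 := by norm_num
  have a2 : |(-1:ℤ)| ≤ 1 := by norm_num
  have a3 : |(0:ℤ)| ≤ 1 := by norm_num
  refine ⟨fun hs => ⟨?_, ?_⟩, fun _ hs0 => ⟨?_, ?_⟩⟩
  · have hs0 := cl_ne0 2 (Or.inr (Or.inl rfl)) s hs
    have := bnd1 y 1 1 1 1 0 s (12 * ry y s ^ (-(1 / 2) : ℝ)) (C * y ^ (-(11 / 8) : ℝ))
      (mul_nonneg (by norm_num) (Real.rpow_nonneg (ry_nonneg y s) _)) (Or.inl rfl) (Or.inl rfl)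
      hf1 hS1 (fun k k' h1 h2 h12 => by
        have := (hBDX y hy0 1 0 k k' a1 a3 (ne0_of_snd k h1) (ne0_of_snd k' h2)
          (by rw [h12]; exact hs0)).2.1
        rw [h12] at this
        exact this)
    unfold Ys
    refine this.trans (le_of_eq ?_)
    ring
  · have hs0 := cl_ne0 2 (Or.inr (Or.inl rfl)) s hs
    have := bnd2 y 1 1 3 1 (-1) (-s) (12 * ry y s ^ (-(1 / 2) : ℝ)) C
      (mul_nonneg (by norm_num) (Real.rpow_nonneg (ry_nonneg y s) _)) (Or.inl rfl)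
      (Or.inr (Or.inr (Or.inl rfl)))
      hf0 hS0 (fun k k' h1 h2 h12 => by
        have := (hBDX y hy0 1 (-1) k k' a1 a2 h1 h2
          (by rw [h12]; exact neg_ne_zero.2 hs0)).2.1
        rw [h12, ry_neg] at this
        exact this)
    unfold Ws
    refine this.trans (le_of_eq ?_)
    ring
  · have := bnd1 y 0 1 5 1 (-1) s (12 * ry y s ^ (1 / 2 : ℝ)) (C * y ^ (-(11 / 8) : ℝ))
      (mul_nonneg (by norm_num) (Real.rpow_nonneg (ry_nonneg y s) _)) (Or.inl rfl) (Or.inr rfl)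
      hf1 hS1 (fun k k' h1 h2 h12 => by
        have := (hBDX y hy0 1 (-1) k k' a1 a2 (ne0_of_snd k h1) (ne0_of_snd k' h2)
          (by rw [h12]; exact hs0)).1
        rw [h12] at this
        exact this)
    unfold Es
    refine this.trans (le_of_eq ?_)
    ring
  · have := bnd1 y 2 1 5 1 (-1) s (12 * (y ^ (-(1 / 2) : ℝ) * ry y s ^ (-1 : ℝ)))
      (C * y ^ (-(11 / 8) : ℝ))
      (mul_nonneg (by norm_num) (mul_nonneg (Real.rpow_nonneg hy0.le _)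
        (Real.rpow_nonneg (ry_nonneg y s) _))) (Or.inl rfl) (Or.inr rfl)
      hf1 hS1 (fun k k' h1 h2 h12 => by
        have := (hBDX y hy0 1 (-1) k k' a1 a2 (ne0_of_snd k h1) (ne0_of_snd k' h2)
          (by rw [h12]; exact hs0)).2.2 (hy1 y hy0 k h1) (hy1 y hy0 k' h2)
        rw [h12] at this
        exact this)
    unfold Es
    refine this.trans (le_of_eq ?_)
    have e : y ^ (-(1 / 2) : ℝ) * y ^ (-(11 / 8) : ℝ) = y ^ (-(15 / 8) : ℝ) := by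
      rw [← Real.rpow_add hy0]
      norm_num
    rw [← e]
    ring

end Pool.Agent.Helper58.EC.E_BY
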